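import Mathlib

/-! The fixed point of `0 ↦ 01, 1 ↦ 23, 2 ↦ 4, 3 ↦ 21, 4 ↦ 0` has no squares. -/

set_option autoImplicit false

namespace Pool.Agent.R717.Seq

/-- the images of the letters -/
def ph : Fin 5 → List (Fin 5)
  | 0 => [0, 1]
  | 1 => [2, 3]
  | 2 => [4]
  | 3 => [2, 1]
  | 4 => [0]

/-- the morphism -/
def Ph (P : List (Fin 5)) : List (Fin 5) := P.flatMap ph

@[simp] theorem Ph_nil : Ph [] = [] := rfl
@[simp] theorem Ph_cons (a : Fin 5) (P : List (Fin 5)) : Ph (a :: P) = ph a ++ Ph P := rfl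
@[simp] theorem Ph_append (P Q : List (Fin 5)) : Ph (P ++ Q) = Ph P ++ Ph Q := by
  simp [Ph]

/-- letters which can start a block -/
def st (a : Fin 5) : Prop := a = 0 ∨ a = 2 ∨ a = 4

/-- a list that can start at a cut -/
def cs : List (Fin 5) → Prop
  | [] => True
  | a :: _ => st a

/-- pairs of neighbours -/
def R (a b : Fin 5) : Prop :=
  (a = 0 ∧ (b = 1 ∨ b = 4)) ∨ (a = 1 ∧ (b = 0 ∨ b = 2)) ∨ (a = 2 ∧ (b = 1 ∨ b = 3)) ∨
    (a = 3 ∧ (b = 0 ∨ b = 4)) ∨ (a = 4 ∧ b = 2)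

instance (a b : Fin 5) : Decidable (R a b) := by unfold R; infer_instance
instance (a : Fin 5) : Decidable (st a) := by unfold st; infer_instance

/-- all pairs of neighbours are allowed -/
def Adj (P : List (Fin 5)) : Prop := ∀ X Y a b, P = X ++ a :: b :: Y → R a b

theorem cut : ∀ (P A B : List (Fin 5)), Ph P = A ++ B → cs B →
    ∃ P1 P2, P = P1 ++ P2 ∧ Ph P1 = A ∧ Ph P2 = B := by
  intro P
  induction P with
  | nil =>
    intro A B h _
    simp only [Ph_nil] at h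
    obtain ⟨rfl, rfl⟩ := List.append_eq_nil_iff.1 h.symm
    exact ⟨[], [], rfl, rfl, rfl⟩
  | cons p P ih =>
    intro A B h hB
    rcases A with _ | ⟨a, A⟩
    · exact ⟨[], p :: P, rfl, rfl, by simpa using h⟩
    have key : ∃ A', a :: A = ph p ++ A' ∧ Ph P = A' ++ B := by
      fin_cases p <;> simp only [ph, Ph_cons, List.cons_append, List.nil_append] at h ⊢
      all_goals first
        | (rcases A with _ | ⟨a', A⟩
           · exfalso
             simp only [List.cons_append, List.nil_append, List.cons.injEq] at h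
             obtain ⟨_, h2⟩ := h
             subst h2
             simp [cs, st] at hB
           · simp only [List.cons_append, List.cons.injEq] at h
             obtain ⟨rfl, rfl, h⟩ := h
             exact ⟨A, rfl, h⟩)
        | (simp only [List.cons_append, List.cons.injEq] at h
           obtain ⟨rfl, h⟩ := h
           exact ⟨A, rfl, h⟩)
    obtain ⟨A', hA, hP⟩ := key
    obtain ⟨P1, P2, rfl, h1, h2⟩ := ih A' B hP hB
    exact ⟨p :: P1, P2, rfl, by rw [Ph_cons, h1, hA], h2⟩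

theorem Ph_cs : ∀ P : List (Fin 5), cs (Ph P)
  | [] => trivial
  | a :: P => by fin_cases a <;> simp [ph, cs, st]

theorem Ph_inj : ∀ P Q : List (Fin 5), Ph P = Ph Q → P = Q := by
  intro P
  induction P with
  | nil =>
    intro Q h
    rcases Q with _ | ⟨q, Q⟩
    · rfl
    · exfalso; fin_cases q <;> simp [ph] at h
  | cons p P ih =>
    intro Q h
    rcases Q with _ | ⟨q, Q⟩
    · exfalso; fin_cases p <;> simp [ph] at h
    have hP := Ph_cs P
    have hQ := Ph_cs Q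
    have : p = q ∧ Ph P = Ph Q := by
      fin_cases p <;> fin_cases q <;> simp [ph] at h ⊢ <;>
        first
          | exact h
          | (exfalso; rw [h] at hP; simp [cs, st] at hP)
          | (exfalso; rw [← h] at hQ; simp [cs, st] at hQ)
    obtain ⟨rfl, h'⟩ := this
    rw [ih Q h']

/-- two copies of a word between cuts -/
theorem two {P X U Z Y : List (Fin 5)} (h : Ph P = X ++ (U ++ (Z ++ (U ++ Y))))
    (h1 : cs (U ++ (Z ++ (U ++ Y)))) (h2 : cs (Z ++ (U ++ Y))) (h3 : cs (U ++ Y)) (h4 : cs Y) :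
    ∃ P1 Q M P2, P = P1 ++ (Q ++ (M ++ (Q ++ P2))) ∧ Ph P1 = X ∧ Ph Q = U ∧ Ph M = Z ∧
      Ph P2 = Y := by
  obtain ⟨P1, R1, rfl, e1, f1⟩ := cut _ _ _ h h1
  obtain ⟨Q, R2, rfl, e2, f2⟩ := cut _ _ _ f1 h2
  obtain ⟨M, R3, rfl, e3, f3⟩ := cut _ _ _ f2 h3
  obtain ⟨Q', P2, rfl, e4, f4⟩ := cut _ _ _ f3 h4
  have : Q' = Q := Ph_inj _ _ (e4.trans e2.symm)
  subst this
  exact ⟨P1, Q', M, P2, rfl, e1, e2, e3, f4⟩

/-! decoding at the left end -/

theorem hd21 {P Y : List (Fin 5)} (h : Ph P = 2 :: 1 :: Y) : ∃ P', P = 3 :: P' := by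
  rcases P with _ | ⟨a, P⟩
  · simp at h
  · fin_cases a <;> simp [ph] at h ⊢

theorem hd23 {P Y : List (Fin 5)} (h : Ph P = 2 :: 3 :: Y) : ∃ P', P = 1 :: P' := by
  rcases P with _ | ⟨a, P⟩
  · simp at h
  · fin_cases a <;> simp [ph] at h ⊢

theorem hd01 {P Y : List (Fin 5)} (h : Ph P = 0 :: 1 :: Y) : ∃ P', P = 0 :: P' ∧ Ph P' = Y := by
  rcases P with _ | ⟨a, P⟩
  · simp at h
  · have := Ph_cs P
    fin_cases a <;> simp [ph] at h ⊢
    · exact h
    · rw [h] at this; simp [cs, st] at this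

theorem hd4 {P Y : List (Fin 5)} (h : Ph P = 4 :: Y) : ∃ P', P = 2 :: P' ∧ Ph P' = Y := by
  rcases P with _ | ⟨a, P⟩
  · simp at h
  · fin_cases a <;> simp [ph] at h ⊢
    exact h

theorem hd04 {P Y : List (Fin 5)} (h : Ph P = 0 :: 4 :: Y) : ∃ P', P = 4 :: 2 :: P' := by
  rcases P with _ | ⟨a, P⟩
  · simp at h
  · fin_cases a <;> simp [ph] at h ⊢
    obtain ⟨P', rfl, -⟩ := hd4 h
    exact ⟨P', rfl⟩

theorem hd0 {P Y : List (Fin 5)} (h : Ph P = 0 :: Y) : ∃ P', P = 0 :: P' ∨ P = 4 :: P' := by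
  rcases P with _ | ⟨a, P⟩
  · simp at h
  · fin_cases a <;> simp [ph] at h ⊢

theorem hd2 {P Y : List (Fin 5)} (h : Ph P = 2 :: Y) : ∃ P', P = 1 :: P' ∨ P = 3 :: P' := by
  rcases P with _ | ⟨a, P⟩
  · simp at h
  · fin_cases a <;> simp [ph] at h ⊢

theorem nl {P : List (Fin 5)} (h : Ph P = []) : P = [] := by
  rcases P with _ | ⟨a, P⟩
  · rfl
  · fin_cases a <;> simp [ph] at h

theorem ex23 {P : List (Fin 5)} (h : Ph P = [2, 3]) : P = [1] := Ph_inj _ _ (h.trans rfl)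
theorem ex21 {P : List (Fin 5)} (h : Ph P = [2, 1]) : P = [3] := Ph_inj _ _ (h.trans rfl)
theorem ex01 {P : List (Fin 5)} (h : Ph P = [0, 1]) : P = [0] := Ph_inj _ _ (h.trans rfl)
theorem ex4 {P : List (Fin 5)} (h : Ph P = [4]) : P = [2] := Ph_inj _ _ (h.trans rfl)
theorem ex0 {P : List (Fin 5)} (h : Ph P = [0]) : P = [4] := Ph_inj _ _ (h.trans rfl)
theorem ex04 {P : List (Fin 5)} (h : Ph P = [0, 4]) : P = [4, 2] := Ph_inj _ _ (h.trans rfl)
theorem ex421 {P : List (Fin 5)} (h : Ph P = [4, 2, 1]) : P = [2, 3] := Ph_inj _ _ (h.trans rfl)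

/-! decoding at the right end -/

theorem lastcase {P X : List (Fin 5)} {d : Fin 5} (h : Ph P = X ++ [d]) :
    ∃ P' a, P = P' ++ [a] ∧ Ph P' ++ ph a = X ++ [d] := by
  rcases List.eq_nil_or_concat P with rfl | ⟨P', a, rfl⟩
  · simp at h
  · refine ⟨P', a, by simp, ?_⟩
    simpa using h

theorem ls3 {P X : List (Fin 5)} (h : Ph P = X ++ [3]) : ∃ P', P = P' ++ [1] := by
  obtain ⟨P', a, rfl, e⟩ := lastcase h
  have e' := congrArg List.reverse e
  fin_cases a <;> simp [ph] at e' ⊢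

theorem ls1 {P X : List (Fin 5)} (h : Ph P = X ++ [1]) :
    ∃ P', P = P' ++ [0] ∨ P = P' ++ [3] := by
  obtain ⟨P', a, rfl, e⟩ := lastcase h
  have e' := congrArg List.reverse e
  fin_cases a <;> simp [ph] at e' ⊢

theorem ls4 {P X : List (Fin 5)} (h : Ph P = X ++ [4]) : ∃ P', P = P' ++ [2] := by
  obtain ⟨P', a, rfl, e⟩ := lastcase h
  have e' := congrArg List.reverse e
  fin_cases a <;> simp [ph] at e' ⊢

theorem ls0 {P X : List (Fin 5)} (h : Ph P = X ++ [0]) : ∃ P', P = P' ++ [4] := by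
  obtain ⟨P', a, rfl, e⟩ := lastcase h
  have e' := congrArg List.reverse e
  fin_cases a <;> simp [ph] at e' ⊢

theorem ls21 {P X : List (Fin 5)} (h : Ph P = X ++ [2, 1]) : ∃ P', P = P' ++ [3] := by
  have h' : Ph P = (X ++ [2]) ++ [1] := by simpa using h
  obtain ⟨P', a, rfl, e⟩ := lastcase h'
  have e' := congrArg List.reverse e
  fin_cases a <;> simp [ph] at e' ⊢

theorem ls01 {P X : List (Fin 5)} (h : Ph P = X ++ [0, 1]) : ∃ P', P = P' ++ [0] := by
  have h' : Ph P = (X ++ [0]) ++ [1] := by simpa using h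
  obtain ⟨P', a, rfl, e⟩ := lastcase h'
  have e' := congrArg List.reverse e
  fin_cases a <;> simp [ph] at e' ⊢

end Pool.Agent.R717.Seq
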