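import Mathlib
import Pool.Agent.R717.Seq.B5

/-! The class of words used to show that the fixed point has no squares. -/

set_option autoImplicit false

namespace Pool.Agent.R717.Seq

theorem adj_iff {P : List (Fin 5)} : Adj P ↔ P.IsChain R := by
  constructor
  · intro h
    rw [List.isChain_iff_forall_rel_of_append_cons_cons]
    intro a b X Y e
    exact h X Y a b e
  · intro h X Y a b e
    subst e
    exact (List.isChain_append_cons_cons.1 h).2.1

theorem Adj.Ph {P : List (Fin 5)} (h : Adj P) : Adj (Ph P) := by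
  rw [adj_iff] at h ⊢
  induction P with
  | nil => simp
  | cons a P ih =>
    rcases P with _ | ⟨b, P⟩
    · fin_cases a <;> simp [ph] <;> decide
    · rw [List.isChain_cons_cons] at h
      have h2 := ih h.2
      have h1 := h.1
      fin_cases a <;> fin_cases b <;> simp [ph, R, List.isChain_cons_cons] at h1 h2 ⊢ <;>
        exact h2

structure Good (P : List (Fin 5)) : Prop where
  adj : Adj P
  sq : ∀ X V Y, P = X ++ (V ++ (V ++ Y)) → V = []
  w1 : ∀ X V Y, P ≠ X ++ (V ++ 3 :: (V ++ 1 :: Y))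
  w2 : ∀ X V Y, P ≠ X ++ (V ++ 1 :: (V ++ 3 :: Y))
  w3 : ∀ X V Y, P ≠ X ++ (V ++ 4 :: (V ++ 0 :: Y))
  w4 : ∀ X V Y, P ≠ X ++ (V ++ 2 :: (V ++ 0 :: Y))
  b5 : ∀ X V Y, P ≠ X ++ 3 :: (V ++ 0 :: (V ++ 4 :: Y))
  b6 : ∀ X V Y, P ≠ X ++ 2 :: (V ++ 0 :: (V ++ 4 :: Y))
  b7 : ∀ X V Y, P ≠ X ++ 3 :: (V ++ 0 :: (V ++ 2 :: Y))
  b8 : ∀ X V Y, P ≠ X ++ 4 :: (V ++ 1 :: (V ++ 4 :: Y))
  b9 : ∀ X V Y, P ≠ X ++ 1 :: (V ++ 4 :: (V ++ 1 :: Y))
  b10 : ∀ X V Y, P ≠ X ++ 0 :: (V ++ 4 :: 2 :: (V ++ 0 :: Y))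
  b11 : ∀ X V Y, P ≠ X ++ 0 :: (V ++ 2 :: 3 :: (V ++ 0 :: Y))

/-- two neighbours -/
theorem Adj.mid {P : List (Fin 5)} (h : Adj P) (X : List (Fin 5)) (a b : Fin 5)
    (Y : List (Fin 5)) (e : P = X ++ a :: b :: Y) : R a b := h X Y a b e

theorem lastc (V : List (Fin 5)) : V = [] ∨ ∃ U l, V = U ++ [l] := by
  rcases List.eq_nil_or_concat V with h | ⟨U, l, h⟩
  · exact Or.inl h
  · exact Or.inr ⟨U, l, by simp [h]⟩

theorem p0 {a : Fin 5} : R a 0 → a = 1 ∨ a = 3 := by revert a; decide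
theorem p1 {a : Fin 5} : R a 1 → a = 0 ∨ a = 2 := by revert a; decide
theorem p2 {a : Fin 5} : R a 2 → a = 1 ∨ a = 4 := by revert a; decide
theorem p3 {a : Fin 5} : R a 3 → a = 2 := by revert a; decide
theorem p4 {a : Fin 5} : R a 4 → a = 0 ∨ a = 3 := by revert a; decide
theorem s0 {a : Fin 5} : R 0 a → a = 1 ∨ a = 4 := by revert a; decide
theorem s1 {a : Fin 5} : R 1 a → a = 0 ∨ a = 2 := by revert a; decide
theorem s2 {a : Fin 5} : R 2 a → a = 1 ∨ a = 3 := by revert a; decide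
theorem s3 {a : Fin 5} : R 3 a → a = 0 ∨ a = 4 := by revert a; decide
theorem s4 {a : Fin 5} : R 4 a → a = 2 := by revert a; decide

theorem nst {a : Fin 5} : ¬ st a → a = 1 ∨ a = 3 := by revert a; decide

theorem cs_of {U A B : List (Fin 5)} (hA : cs A) (h : cs (U ++ B)) : cs (U ++ A) := by
  rcases U with _ | ⟨u, U⟩
  · exact hA
  · exact h

variable {P : List (Fin 5)}

theorem w1_step (g : Good P) (X V Y : List (Fin 5)) :
    Ph P ≠ X ++ (V ++ 3 :: (V ++ 1 :: Y)) := by
  intro h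
  have hA := g.adj.Ph
  rcases lastc V with rfl | ⟨U, l, rfl⟩
  · exact absurd (hA.mid X 3 1 Y (by simp [h])) (by decide)
  obtain rfl := p3 (hA.mid (X ++ U) l 3 ((U ++ [l]) ++ 1 :: Y) (by simp [h]))
  have hU : cs (U ++ (2 :: 1 :: Y)) := by
    rcases U with _ | ⟨u, U⟩
    · simp [cs, st]
    · rcases s3 (hA.mid (X ++ (u :: U) ++ [2]) 3 u (U ++ 2 :: 1 :: Y) (by simp [h])) with
        rfl | rfl <;> simp [cs, st]
  obtain ⟨P1, Q, M, P2, rfl, e1, e2, e3, e4⟩ :=
    two (P := P) (X := X) (U := U) (Z := [2, 3]) (Y := 2 :: 1 :: Y) (by simp [h])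
      (cs_of (by simp [cs, st]) hU) (by simp [cs, st]) hU (by simp [cs, st])
  obtain rfl := ex23 e3
  obtain ⟨P', rfl⟩ := hd21 e4
  exact g.w2 P1 Q P' (by simp)

theorem w2_step (g : Good P) (X V Y : List (Fin 5)) :
    Ph P ≠ X ++ (V ++ 1 :: (V ++ 3 :: Y)) := by
  intro h
  have hA := g.adj.Ph
  rcases lastc V with rfl | ⟨U, l, rfl⟩
  · exact absurd (hA.mid X 1 3 Y (by simp [h])) (by decide)
  obtain rfl := p3 (hA.mid (X ++ (U ++ [l]) ++ 1 :: U) l 3 Y (by simp [h]))
  have hU : cs (U ++ (2 :: 3 :: Y)) := by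
    rcases U with _ | ⟨u, U⟩
    · simp [cs, st]
    · rcases s1 (hA.mid (X ++ (u :: U) ++ [2]) 1 u (U ++ 2 :: 3 :: Y) (by simp [h])) with
        rfl | rfl <;> simp [cs, st]
  obtain ⟨P1, Q, M, P2, rfl, e1, e2, e3, e4⟩ :=
    two (P := P) (X := X) (U := U) (Z := [2, 1]) (Y := 2 :: 3 :: Y) (by simp [h])
      (cs_of (by simp [cs, st]) hU) (by simp [cs, st]) hU (by simp [cs, st])
  obtain rfl := ex21 e3
  obtain ⟨P', rfl⟩ := hd23 e4
  exact g.w1 P1 Q P' (by simp)

theorem w3_step (g : Good P) (X V Y : List (Fin 5)) :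
    Ph P ≠ X ++ (V ++ 4 :: (V ++ 0 :: Y)) := by
  intro h
  have hA := g.adj.Ph
  have hV : cs (V ++ 0 :: Y) := by
    rcases V with _ | ⟨u, U⟩
    · simp [cs, st]
    · obtain rfl := s4 (hA.mid (X ++ (u :: U)) 4 u (U ++ 0 :: Y) (by simp [h]))
      simp [cs, st]
  obtain ⟨P1, Q, M, P2, rfl, e1, e2, e3, e4⟩ :=
    two (P := P) (X := X) (U := V) (Z := [4]) (Y := 0 :: Y) (by simp [h])
      (cs_of (by simp [cs, st]) hV) (by simp [cs, st]) hV (by simp [cs, st])
  obtain rfl := ex4 e3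
  obtain ⟨P', rfl | rfl⟩ := hd0 e4
  · exact g.w4 P1 Q P' (by simp)
  · -- `Q 2 Q 4`
    rcases lastc Q with rfl | ⟨U, l, rfl⟩
    · exact absurd (g.adj.mid P1 2 4 P' (by simp)) (by decide)
    · have r1 := p2 (g.adj.mid (P1 ++ U) l 2 (U ++ [l] ++ 4 :: P') (by simp))
      have r2 := p4 (g.adj.mid (P1 ++ U ++ [l] ++ 2 :: U) l 4 P' (by simp))
      rcases r1 with rfl | rfl <;> rcases r2 with h | h <;> exact absurd h (by decide)

theorem w4_step (g : Good P) (X V Y : List (Fin 5)) :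
    Ph P ≠ X ++ (V ++ 2 :: (V ++ 0 :: Y)) := by
  intro h
  have hA := g.adj.Ph
  rcases V with _ | ⟨e, U⟩
  · exact absurd (hA.mid X 2 0 Y (by simp [h])) (by decide)
  have re := s2 (hA.mid (X ++ (e :: U)) 2 e (U ++ 0 :: Y) (by simp [h]))
  have hl : ∃ W, e :: U = W ++ [1] := by
    rcases lastc (e :: U) with h' | ⟨W, l, h'⟩
    · simp at h'
    · have r1 := p2 (hA.mid (X ++ W) l 2 (W ++ [l] ++ 0 :: Y) (by rw [h, h']; simp))
      have r2 := p0 (hA.mid (X ++ W ++ [l] ++ 2 :: W) l 0 Y (by rw [h, h']; simp))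
      rcases r1 with rfl | rfl
      · exact ⟨W, h'⟩
      · rcases r2 with h | h <;> exact absurd h (by decide)
  have hU : cs (U ++ 0 :: Y) := by
    rcases U with _ | ⟨u, U⟩
    · simp [cs, st]
    · have := hA.mid (X ++ (e :: u :: U) ++ [2]) e u (U ++ 0 :: Y) (by simp [h])
      rcases re with rfl | rfl
      · rcases s1 this with rfl | rfl <;> simp [cs, st]
      · rcases s3 this with rfl | rfl <;> simp [cs, st]
  obtain ⟨P1, Q, M, P2, rfl, e1, e2, e3, e4⟩ :=
    two (P := P) (X := X ++ [e]) (U := U) (Z := [2, e]) (Y := 0 :: Y) (by simp [h])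
      (cs_of (by simp [cs, st]) hU) (by simp [cs, st]) hU (by simp [cs, st])
  rcases re with rfl | rfl
  · -- `e = 1`, `M = 3`
    obtain rfl := ex21 e3
    rcases lastc (P1 ++ Q) with h0 | ⟨W, l, h0⟩
    · obtain ⟨rfl, rfl⟩ := List.append_eq_nil_iff.1 h0
      simp at e1
    · obtain rfl := p3 (g.adj.mid W l 3 (Q ++ P2) (by rw [← List.append_assoc, h0]; simp))
      have : Ph (P1 ++ Q) = X ++ (1 :: U) := by rw [Ph_append, e1, e2]; simp
      rw [h0] at this
      obtain ⟨W', hW'⟩ := hl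
      rw [hW'] at this
      have := congrArg List.reverse this
      simp [ph] at this
  · obtain rfl := ex23 e3
    obtain ⟨P1', rfl⟩ := ls3 e1
    have := g.sq P1' (1 :: Q) P2 (by simp)
    simp at this

theorem no304 (g : Good P) (X Y : List (Fin 5)) : Ph P ≠ X ++ 3 :: 0 :: 4 :: Y := by
  intro h
  obtain ⟨P1, P2, rfl, e1, e2⟩ := cut P (X ++ [3]) (0 :: 4 :: Y) (by simp [h]) (by simp [cs, st])
  obtain ⟨P1', rfl⟩ := ls3 e1
  obtain ⟨P2', rfl⟩ := hd04 e2
  exact absurd (g.adj.mid P1' 1 4 (2 :: P2') (by simp)) (by decide)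

theorem b5_step (g : Good P) (X V Y : List (Fin 5)) :
    Ph P ≠ X ++ 3 :: (V ++ 0 :: (V ++ 4 :: Y)) := by
  intro h
  have hA := g.adj.Ph
  rcases V with _ | ⟨u, U⟩
  · exact no304 g X Y (by simp [h])
  have r1 := s3 (hA.mid X 3 u (U ++ 0 :: (u :: U ++ 4 :: Y)) (by simp [h]))
  have r2 := s0 (hA.mid (X ++ 3 :: (u :: U)) 0 u (U ++ 4 :: Y) (by simp [h]))
  have hu : u = 4 := by
    rcases r1 with rfl | rfl
    · rcases r2 with h | h <;> exact absurd h (by decide)
    · rfl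
  subst hu
  rcases lastc (4 :: U) with h' | ⟨W, l, h'⟩
  · simp at h'
  have r3 := p0 (hA.mid (X ++ 3 :: W) l 0 (W ++ [l] ++ 4 :: Y) (by rw [h, h']; simp))
  have r4 := p4 (hA.mid (X ++ 3 :: (W ++ [l]) ++ 0 :: W) l 4 Y (by rw [h, h']; simp))
  have hl : l = 3 := by
    rcases r3 with rfl | rfl
    · rcases r4 with h | h <;> exact absurd h (by decide)
    · rfl
  subst hl
  have e : ∀ Z, 4 :: (U ++ Z) = W ++ 3 :: Z := fun Z => by
    rw [← List.cons_append, h']; simp
  refine no304 g (X ++ 3 :: W) (U ++ 4 :: Y) ?_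
  rw [h]
  simp [e]

theorem b6_step (g : Good P) (X V Y : List (Fin 5)) :
    Ph P ≠ X ++ 2 :: (V ++ 0 :: (V ++ 4 :: Y)) := by
  intro h
  have hA := g.adj.Ph
  rcases V with _ | ⟨u, U⟩
  · exact absurd (hA.mid X 2 0 (4 :: Y) (by simp [h])) (by decide)
  have r1 := s2 (hA.mid X 2 u (U ++ 0 :: (u :: U ++ 4 :: Y)) (by simp [h]))
  have r2 := s0 (hA.mid (X ++ 2 :: (u :: U)) 0 u (U ++ 4 :: Y) (by simp [h]))
  have hu : u = 1 := by
    rcases r1 with rfl | rfl
    · rfl
    · rcases r2 with h | h <;> exact absurd h (by decide)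
  subst hu
  have hU : cs (U ++ 4 :: Y) := by
    rcases U with _ | ⟨u, U⟩
    · simp [cs, st]
    · rcases s1 (hA.mid (X ++ [2]) 1 u (U ++ 0 :: (1 :: u :: U ++ 4 :: Y)) (by simp [h])) with
        rfl | rfl <;> simp [cs, st]
  obtain ⟨P1, Q, M, P2, rfl, e1, e2, e3, e4⟩ :=
    two (P := P) (X := X ++ [2, 1]) (U := U) (Z := [0, 1]) (Y := 4 :: Y) (by simp [h])
      (cs_of (by simp [cs, st]) hU) (by simp [cs, st]) hU (by simp [cs, st])
  obtain rfl := ex01 e3
  obtain ⟨P', rfl, -⟩ := hd4 e4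
  obtain ⟨P1', rfl⟩ := ls21 e1
  exact g.b7 P1' Q P' (by simp)

theorem b7_step (g : Good P) (X V Y : List (Fin 5)) :
    Ph P ≠ X ++ 3 :: (V ++ 0 :: (V ++ 2 :: Y)) := by
  intro h
  have hA := g.adj.Ph
  rcases V with _ | ⟨u, U⟩
  · exact absurd (hA.mid (X ++ [3]) 0 2 Y (by simp [h])) (by decide)
  have r1 := s3 (hA.mid X 3 u (U ++ 0 :: (u :: U ++ 2 :: Y)) (by simp [h]))
  have r2 := s0 (hA.mid (X ++ 3 :: (u :: U)) 0 u (U ++ 2 :: Y) (by simp [h]))
  have hu : u = 4 := by
    rcases r1 with rfl | rfl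
    · rcases r2 with h | h <;> exact absurd h (by decide)
    · rfl
  subst hu
  obtain ⟨P1, Q, M, P2, rfl, e1, e2, e3, e4⟩ :=
    two (P := P) (X := X ++ [3]) (U := 4 :: U) (Z := [0]) (Y := 2 :: Y) (by simp [h])
      (by simp [cs, st]) (by simp [cs, st]) (by simp [cs, st]) (by simp [cs, st])
  obtain rfl := ex0 e3
  obtain ⟨P1', rfl⟩ := ls3 e1
  rcases lastc Q with rfl | ⟨W, l, rfl⟩
  · simp at e2
  have r3 := p4 (g.adj.mid (P1' ++ [1] ++ W) l 4 (W ++ [l] ++ P2) (by simp))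
  obtain ⟨P2', rfl | rfl⟩ := hd2 e4
  · exact g.b9 P1' (W ++ [l]) P2' (by simp)
  · have r4 := p3 (g.adj.mid (P1' ++ [1] ++ W ++ [l] ++ 4 :: W) l 3 P2' (by simp))
    subst r4
    rcases r3 with h | h <;> exact absurd h (by decide)

theorem b8_step (g : Good P) (X V Y : List (Fin 5)) :
    Ph P ≠ X ++ 4 :: (V ++ 1 :: (V ++ 4 :: Y)) := by
  intro h
  have hA := g.adj.Ph
  rcases V with _ | ⟨u, U⟩
  · exact absurd (hA.mid X 4 1 (4 :: Y) (by simp [h])) (by decide)
  have hu := s4 (hA.mid X 4 u (U ++ 1 :: (u :: U ++ 4 :: Y)) (by simp [h]))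
  subst hu
  rcases lastc (2 :: U) with h' | ⟨W, l, h'⟩
  · simp at h'
  rw [h'] at h
  have r3 := p1 (hA.mid (X ++ 4 :: W) l 1 (W ++ [l] ++ 4 :: Y) (by rw [h]; simp))
  have r4 := p4 (hA.mid (X ++ 4 :: (W ++ [l]) ++ 1 :: W) l 4 Y (by rw [h]; simp))
  have hl : l = 0 := by
    rcases r3 with rfl | rfl
    · rfl
    · rcases r4 with h | h <;> exact absurd h (by decide)
  subst hl
  rcases W with _ | ⟨w, W⟩
  · simp at h'
  obtain rfl : 2 = w := by simp at h'; exact h'.1
  obtain ⟨P1, Q, M, P2, rfl, e1, e2, e3, e4⟩ :=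
    two (P := P) (X := X ++ [4]) (U := 2 :: W) (Z := [0, 1]) (Y := 0 :: 4 :: Y) (by simp [h])
      (by simp [cs, st]) (by simp [cs, st]) (by simp [cs, st]) (by simp [cs, st])
  obtain rfl := ex01 e3
  obtain ⟨P1', rfl⟩ := ls4 e1
  obtain ⟨P2', rfl⟩ := hd04 e4
  exact g.b6 P1' Q (2 :: P2') (by simp)

theorem b9_step (g : Good P) (X V Y : List (Fin 5)) :
    Ph P ≠ X ++ 1 :: (V ++ 4 :: (V ++ 1 :: Y)) := by
  intro h
  have hA := g.adj.Ph
  rcases V with _ | ⟨u, U⟩
  · exact absurd (hA.mid X 1 4 (1 :: Y) (by simp [h])) (by decide)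
  have hu := s4 (hA.mid (X ++ 1 :: (u :: U)) 4 u (U ++ 1 :: Y) (by simp [h]))
  subst hu
  rcases lastc (2 :: U) with h' | ⟨W, l, h'⟩
  · simp at h'
  rw [h'] at h
  have r3 := p4 (hA.mid (X ++ 1 :: W) l 4 (W ++ [l] ++ 1 :: Y) (by rw [h]; simp))
  have r4 := p1 (hA.mid (X ++ 1 :: (W ++ [l]) ++ 4 :: W) l 1 Y (by rw [h]; simp))
  have hl : l = 0 := by
    rcases r3 with rfl | rfl
    · rfl
    · rcases r4 with h | h <;> exact absurd h (by decide)
  subst hl
  rcases W with _ | ⟨w, W⟩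
  · simp at h'
  obtain rfl : 2 = w := by simp at h'; exact h'.1
  obtain ⟨P1, Q, M, P2, rfl, e1, e2, e3, e4⟩ :=
    two (P := P) (X := X ++ [1]) (U := 2 :: W) (Z := [0, 4]) (Y := 0 :: 1 :: Y) (by simp [h])
      (by simp [cs, st]) (by simp [cs, st]) (by simp [cs, st]) (by simp [cs, st])
  obtain rfl := ex04 e3
  obtain ⟨P2', rfl, -⟩ := hd01 e4
  rcases Q with _ | ⟨q, Q⟩
  · simp at e2
  have hq : q = 1 ∨ q = 3 := by
    obtain ⟨Q', h | h⟩ := hd2 (P := q :: Q) e2 <;> simp at h <;> simp [h.1]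
  obtain ⟨P1', rfl | rfl⟩ := ls1 e1
  · exact g.b10 P1' (q :: Q) P2' (by simp)
  · have := s3 (g.adj.mid P1' 3 q (Q ++ (4 :: 2 :: (q :: Q ++ 0 :: P2'))) (by simp))
    rcases hq with rfl | rfl <;> rcases this with h | h <;> exact absurd h (by decide)

theorem b10_step (g : Good P) (X V Y : List (Fin 5)) :
    Ph P ≠ X ++ 0 :: (V ++ 4 :: 2 :: (V ++ 0 :: Y)) := by
  intro h
  have hA := g.adj.Ph
  rcases V with _ | ⟨u, U⟩
  · exact absurd (hA.mid (X ++ [0, 4]) 2 0 Y (by simp [h])) (by decide)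
  have r1 := s0 (hA.mid X 0 u (U ++ 4 :: 2 :: (u :: U ++ 0 :: Y)) (by simp [h]))
  have r2 := s2 (hA.mid (X ++ 0 :: (u :: U) ++ [4]) 2 u (U ++ 0 :: Y) (by simp [h]))
  have hu : u = 1 := by
    rcases r1 with rfl | rfl
    · rfl
    · rcases r2 with h | h <;> exact absurd h (by decide)
  subst hu
  have hU : cs (U ++ 0 :: Y) := by
    rcases U with _ | ⟨u, U⟩
    · simp [cs, st]
    · rcases s1 (hA.mid (X ++ [0]) 1 u (U ++ 4 :: 2 :: (1 :: u :: U ++ 0 :: Y)) (by simp [h]))
        with rfl | rfl <;> simp [cs, st]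
  obtain ⟨P1, Q, M, P2, rfl, e1, e2, e3, e4⟩ :=
    two (P := P) (X := X ++ [0, 1]) (U := U) (Z := [4, 2, 1]) (Y := 0 :: Y) (by simp [h])
      (cs_of (by simp [cs, st]) hU) (by simp [cs, st]) hU (by simp [cs, st])
  obtain rfl := ex421 e3
  obtain ⟨P1', rfl⟩ := ls01 e1
  obtain ⟨P2', rfl | rfl⟩ := hd0 e4
  · exact g.b11 P1' Q P2' (by simp)
  · rcases lastc Q with rfl | ⟨W, l, rfl⟩
    · exact absurd (g.adj.mid P1' 0 2 (3 :: 4 :: P2') (by simp)) (by decide)
    · have r3 := p2 (g.adj.mid (P1' ++ [0] ++ W) l 2 (3 :: (W ++ [l] ++ 4 :: P2')) (by simp))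
      have r4 := p4 (g.adj.mid (P1' ++ [0] ++ W ++ [l] ++ 2 :: 3 :: W) l 4 P2' (by simp))
      rcases r3 with rfl | rfl <;> rcases r4 with h | h <;> exact absurd h (by decide)

theorem b11_step (g : Good P) (X V Y : List (Fin 5)) :
    Ph P ≠ X ++ 0 :: (V ++ 2 :: 3 :: (V ++ 0 :: Y)) := by
  intro h
  have hA := g.adj.Ph
  rcases V with _ | ⟨u, U⟩
  · exact absurd (hA.mid X 0 2 (3 :: 0 :: Y) (by simp [h])) (by decide)
  have r1 := s0 (hA.mid X 0 u (U ++ 2 :: 3 :: (u :: U ++ 0 :: Y)) (by simp [h]))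
  have r2 := s3 (hA.mid (X ++ 0 :: (u :: U) ++ [2]) 3 u (U ++ 0 :: Y) (by simp [h]))
  have hu : u = 4 := by
    rcases r1 with rfl | rfl
    · rcases r2 with h | h <;> exact absurd h (by decide)
    · rfl
  subst hu
  obtain ⟨P1, Q, M, P2, rfl, e1, e2, e3, e4⟩ :=
    two (P := P) (X := X ++ [0]) (U := 4 :: U) (Z := [2, 3]) (Y := 0 :: Y) (by simp [h])
      (by simp [cs, st]) (by simp [cs, st]) (by simp [cs, st]) (by simp [cs, st])
  obtain rfl := ex23 e3
  obtain ⟨P1', rfl⟩ := ls0 e1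
  obtain ⟨P2', rfl | rfl⟩ := hd0 e4
  · rcases lastc Q with rfl | ⟨W, l, rfl⟩
    · simp at e2
    · have r3 := p1 (g.adj.mid (P1' ++ [4] ++ W) l 1 (W ++ [l] ++ 0 :: P2') (by simp))
      have r4 := p0 (g.adj.mid (P1' ++ [4] ++ W ++ [l] ++ 1 :: W) l 0 P2' (by simp))
      rcases r3 with rfl | rfl <;> rcases r4 with h | h <;> exact absurd h (by decide)
  · exact g.b8 P1' Q P2' (by simp)

theorem sq_step (g : Good P) (X V Y : List (Fin 5)) (h : Ph P = X ++ (V ++ (V ++ Y))) :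
    V = [] := by
  by_contra hV
  have hA := g.adj.Ph
  rcases V with _ | ⟨e, U⟩
  · exact hV rfl
  by_cases he : st e
  · -- the square starts at a cut
    by_cases hY : cs Y
    · obtain ⟨P1, Q, M, P2, rfl, e1, e2, e3, e4⟩ :=
        two (P := P) (X := X) (U := e :: U) (Z := []) (Y := Y) (by simp [h])
          he he he hY
      obtain rfl := nl e3
      have := g.sq P1 Q P2 (by simp)
      subst this
      simp at e2
    · rcases Y with _ | ⟨y, Y⟩
      · exact hY trivial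
      rcases lastc (e :: U) with h' | ⟨W, l, h'⟩
      · simp at h'
      have hy : y = 1 ∨ y = 3 := nst hY
      have r := hA.mid (X ++ (e :: U) ++ W) l y Y (by rw [h, h']; simp)
      have hl : l = 0 ∨ l = 2 := by
        rcases hy with rfl | rfl
        · exact p1 r
        · exact Or.inr (p3 r)
      have hst : st l := by rcases hl with rfl | rfl <;> simp [st]
      have hW : cs (W ++ l :: y :: Y) := by
        rcases W with _ | ⟨w, W⟩
        · exact hst
        · obtain rfl : e = w := by simp at h'; exact h'.1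
          exact he
      have h2 : Ph P = X ++ (W ++ ([l] ++ (W ++ (l :: y :: Y)))) := by
        rw [h, h']; simp
      obtain ⟨P1, Q, M, P2, rfl, e1, e2, e3, e4⟩ :=
        two h2 (cs_of (show cs ([l] ++ _) from hst) hW) hst hW hst
      rcases hl with rfl | rfl
      · obtain rfl := ex0 e3
        rcases hy with rfl | rfl
        · obtain ⟨P', rfl, -⟩ := hd01 e4
          exact g.w3 P1 Q P' (by simp)
        · exact absurd (p3 r) (by decide)
      · rcases M with _ | ⟨m, M⟩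
        · simp at e3
        · fin_cases m <;> simp [ph] at e3
  · -- the square starts inside a block
    have he' : e = 1 ∨ e = 3 := nst he
    rcases lastc U with rfl | ⟨W, l, rfl⟩
    · have r := hA.mid X e e Y (by simp [h])
      rcases he' with rfl | rfl <;> exact absurd r (by decide)
    have r := hA.mid (X ++ e :: W) l e (W ++ [l] ++ Y) (by simp [h])
    have hst : st l := by
      rcases he' with rfl | rfl
      · rcases p1 r with rfl | rfl <;> simp [st]
      · rcases p3 r with rfl; simp [st]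
    have hW : cs (W ++ l :: Y) := by
      rcases W with _ | ⟨w, W⟩
      · exact hst
      · have r' := hA.mid (X ++ e :: (w :: W ++ [l])) e w (W ++ [l] ++ Y) (by simp [h])
        rcases he' with rfl | rfl
        · rcases s1 r' with rfl | rfl <;> simp [cs, st]
        · rcases s3 r' with rfl | rfl <;> simp [cs, st]
    have h2 : Ph P = (X ++ [e]) ++ (W ++ ([l, e] ++ (W ++ (l :: Y)))) := by
      simp [h]
    obtain ⟨P1, Q, M, P2, rfl, e1, e2, e3, e4⟩ :=
      two h2 (cs_of (show cs ([l, e] ++ _) from hst) hW) hst hW hst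
    rcases he' with rfl | rfl
    · rcases p1 r with rfl | rfl
      · obtain rfl := ex01 e3
        obtain ⟨P1', rfl | rfl⟩ := ls1 e1
        · have := g.sq P1' (0 :: Q) P2 (by simp)
          simp at this
        · obtain ⟨P', rfl | rfl⟩ := hd0 e4
          · have := g.sq (P1' ++ [3]) (Q ++ [0]) P' (by simp)
            simp at this
          · exact g.b5 P1' Q P' (by simp)
      · obtain rfl := ex21 e3
        obtain ⟨P1', rfl | rfl⟩ := ls1 e1
        · obtain ⟨P', rfl | rfl⟩ := hd2 e4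
          · exact g.w1 (P1' ++ [0]) Q P' (by simp)
          · have := g.sq (P1' ++ [0]) (Q ++ [3]) P' (by simp)
            simp at this
        · have := g.sq P1' (3 :: Q) P2 (by simp)
          simp at this
    · obtain rfl := p3 r
      obtain rfl := ex23 e3
      obtain ⟨P1', rfl⟩ := ls3 e1
      have := g.sq P1' (1 :: Q) P2 (by simp)
      simp at this

theorem Good.step (g : Good P) : Good (Ph P) where
  adj := g.adj.Ph
  sq := sq_step g
  w1 := w1_step g
  w2 := w2_step g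
  w3 := w3_step g
  w4 := w4_step g
  b5 := b5_step g
  b6 := b6_step g
  b7 := b7_step g
  b8 := b8_step g
  b9 := b9_step g
  b10 := b10_step g
  b11 := b11_step g

theorem good_zero : Good [0] where
  adj := by
    intro X Y a b h
    have := congrArg List.length h
    simp at this
    omega
  sq := by
    intro X V Y h
    have := congrArg List.length h
    simp at this
    rcases V with _ | ⟨v, V⟩
    · rfl
    · simp at this; omega
  w1 := by intro X V Y h; have := congrArg List.length h; simp at this; omega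
  w2 := by intro X V Y h; have := congrArg List.length h; simp at this; omega
  w3 := by intro X V Y h; have := congrArg List.length h; simp at this; omega
  w4 := by intro X V Y h; have := congrArg List.length h; simp at this; omega
  b5 := by intro X V Y h; have := congrArg List.length h; simp at this; omega
  b6 := by intro X V Y h; have := congrArg List.length h; simp at this; omega
  b7 := by intro X V Y h; have := congrArg List.length h; simp at this; omega
  b8 := by intro X V Y h; have := congrArg List.length h; simp at this; omega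
  b9 := by intro X V Y h; have := congrArg List.length h; simp at this; omega
  b10 := by intro X V Y h; have := congrArg List.length h; simp at this; omega
  b11 := by intro X V Y h; have := congrArg List.length h; simp at this; omega

theorem good_iter (n : ℕ) : Good (Ph^[n] [0]) := by
  induction n with
  | zero => exact good_zero
  | succ n ih => rw [Function.iterate_succ_apply']; exact ih.step

end Pool.Agent.R717.Seq
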