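import Mathlib
import Pool.Agent.R717.Seq.B5b

/-! A ternary square-free word without `010` and `101`. -/

set_option autoImplicit false

namespace Pool.Agent.R717.Seq

/-- the images of the letters -/
def gg : Fin 5 → List (Fin 3)
  | 0 => [0, 2, 1, 2]
  | 1 => [0, 1, 2, 1]
  | 2 => [0, 2]
  | 3 => [0, 1, 2]
  | 4 => [0, 2, 1]

def G (P : List (Fin 5)) : List (Fin 3) := P.flatMap gg

@[simp] theorem G_nil : G [] = [] := rfl
@[simp] theorem G_cons (a : Fin 5) (P : List (Fin 5)) : G (a :: P) = gg a ++ G P := rfl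
@[simp] theorem G_append (P Q : List (Fin 5)) : G (P ++ Q) = G P ++ G Q := by
  simp [G]

/-- a list that can start at a cut -/
def cz : List (Fin 3) → Prop
  | [] => True
  | a :: _ => a = 0

theorem G_cz : ∀ P : List (Fin 5), cz (G P)
  | [] => trivial
  | a :: P => by fin_cases a <;> simp [gg, cz]

theorem cutG : ∀ (P : List (Fin 5)) (A B : List (Fin 3)), G P = A ++ B → cz B →
    ∃ P1 P2, P = P1 ++ P2 ∧ G P1 = A ∧ G P2 = B := by
  intro P
  induction P with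
  | nil =>
    intro A B h _
    simp only [G_nil] at h
    obtain ⟨rfl, rfl⟩ := List.append_eq_nil_iff.1 h.symm
    exact ⟨[], [], rfl, rfl, rfl⟩
  | cons p P ih =>
    intro A B h hB
    rcases A with _ | ⟨a, A⟩
    · exact ⟨[], p :: P, rfl, rfl, by simpa using h⟩
    have key : ∃ A', a :: A = gg p ++ A' ∧ G P = A' ++ B := by
      rcases B with _ | ⟨c, B⟩
      · exact ⟨G P, by simpa using h.symm, by simp⟩
      obtain rfl : c = 0 := hB
      rcases A with _ | ⟨a2, _ | ⟨a3, _ | ⟨a4, A⟩⟩⟩ <;> fin_cases p <;>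
        simp [gg] at h ⊢ <;> grind
    obtain ⟨A', hA, hP⟩ := key
    obtain ⟨P1, P2, rfl, h1, h2⟩ := ih A' B hP hB
    exact ⟨p :: P1, P2, rfl, by rw [G_cons, h1, hA], h2⟩

theorem G_inj : ∀ P Q : List (Fin 5), G P = G Q → P = Q := by
  intro P
  induction P with
  | nil =>
    intro Q h
    rcases Q with _ | ⟨q, Q⟩
    · rfl
    · exfalso; fin_cases q <;> simp [gg] at h
  | cons p P ih =>
    intro Q h
    rcases Q with _ | ⟨q, Q⟩
    · exfalso; fin_cases p <;> simp [gg] at h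
    have hP := G_cz P
    have hQ := G_cz Q
    have : p = q ∧ G P = G Q := by
      fin_cases p <;> fin_cases q <;> simp [gg] at h ⊢ <;>
        first
          | exact h
          | (exfalso; rw [h] at hP; simp [cz] at hP)
          | (exfalso; rw [← h] at hQ; simp [cz] at hQ)
    obtain ⟨rfl, h'⟩ := this
    rw [ih Q h']

theorem twoG {P : List (Fin 5)} {X U Z Y : List (Fin 3)}
    (h : G P = X ++ (U ++ (Z ++ (U ++ Y))))
    (h1 : cz (U ++ (Z ++ (U ++ Y)))) (h2 : cz (Z ++ (U ++ Y))) (h3 : cz (U ++ Y)) (h4 : cz Y) :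
    ∃ P1 Q M P2, P = P1 ++ (Q ++ (M ++ (Q ++ P2))) ∧ G P1 = X ∧ G Q = U ∧ G M = Z ∧
      G P2 = Y := by
  obtain ⟨P1, R1, rfl, e1, f1⟩ := cutG _ _ _ h h1
  obtain ⟨Q, R2, rfl, e2, f2⟩ := cutG _ _ _ f1 h2
  obtain ⟨M, R3, rfl, e3, f3⟩ := cutG _ _ _ f2 h3
  obtain ⟨Q', P2, rfl, e4, f4⟩ := cutG _ _ _ f3 h4
  have : Q' = Q := G_inj _ _ (e4.trans e2.symm)
  subst this
  exact ⟨P1, Q', M, P2, rfl, e1, e2, e3, f4⟩

theorem oneG {M : List (Fin 5)} {z : List (Fin 3)} (h : G M = 0 :: z) (hz : 0 ∉ z) :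
    ∃ m, M = [m] ∧ gg m = 0 :: z := by
  rcases M with _ | ⟨m, _ | ⟨m', M⟩⟩
  · simp at h
  · exact ⟨m, rfl, by simpa using h⟩
  · exfalso
    apply hz
    have hm : ∀ a, ∃ w, gg a = 0 :: w := by intro a; fin_cases a <;> simp [gg]
    obtain ⟨w, hw⟩ := hm m
    obtain ⟨w', hw'⟩ := hm m'
    simp [hw, hw'] at h
    simp [← h]

theorem lastG {P : List (Fin 5)} {X s : List (Fin 3)} (h : G P = X ++ s) (hs : s ≠ []) :
    ∃ P' a, P = P' ++ [a] ∧ G P' ++ gg a = X ++ s := by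
  rcases lastc P with rfl | ⟨P', a, rfl⟩
  · simp at h
    exact absurd h.2 hs
  · exact ⟨P', a, rfl, by simpa using h⟩

theorem firstG {P : List (Fin 5)} {Y : List (Fin 3)} (h : G P = 0 :: Y) :
    ∃ c P', P = c :: P' ∧ gg c ++ G P' = 0 :: Y := by
  rcases P with _ | ⟨c, P'⟩
  · simp at h
  · exact ⟨c, P', rfl, by simpa using h⟩

/-- windows of length four -/
def K (a b c d : Fin 3) : Prop :=
  a ≠ b ∧ b ≠ c ∧ c ≠ d ∧ (a = 0 ∨ b = 0 ∨ c = 0 ∨ d = 0) ∧ (a = 2 ∨ b = 2 ∨ c = 2)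

instance (a b c d : Fin 3) : Decidable (K a b c d) := by unfold K; infer_instance

/-- all windows of length four are fine -/
def ok : List (Fin 3) → Prop
  | a :: b :: c :: d :: l => K a b c d ∧ ok (b :: c :: d :: l)
  | _ => True

theorem ok_spec : ∀ (X : List (Fin 3)) (a b c d : Fin 3) (Y : List (Fin 3)),
    ok (X ++ a :: b :: c :: d :: Y) → K a b c d
  | [], _, _, _, _, _, h => h.1
  | x :: X, a, b, c, d, Y, h => by
    apply ok_spec X a b c d Y
    rcases X with _ | ⟨x1, _ | ⟨x2, _ | ⟨x3, X⟩⟩⟩ <;> exact h.2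

theorem ok_G : ∀ P : List (Fin 5), P.IsChain R → ok (G P)
  | [], _ => trivial
  | [a], _ => by fin_cases a <;> simp [gg, ok, K]
  | [a, b], h => by
    simp only [List.isChain_cons_cons] at h
    have h1 := h.1
    fin_cases a <;> fin_cases b <;> simp [R] at h1 <;> simp [gg, ok, K]
  | a :: b :: c :: P, h => by
    rw [List.isChain_cons_cons] at h
    have h1 := h.1
    have h2 := (List.isChain_cons_cons.1 h.2).1
    have ih := ok_G (b :: c :: P) h.2
    fin_cases a <;> fin_cases b <;> simp [R] at h1 <;> fin_cases c <;> simp [R] at h2 <;>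
      simp [gg, ok, K] at ih ⊢ <;> exact ih

theorem K_of {P : List (Fin 5)} (g : Good P) {X Y : List (Fin 3)} {a b c d : Fin 3}
    (h : G P = X ++ a :: b :: c :: d :: Y) : K a b c d := by
  have := ok_G P (adj_iff.1 g.adj)
  rw [h] at this
  exact ok_spec _ _ _ _ _ _ this

/-! ### squares -/

variable {P : List (Fin 5)}

/-- information on the right only -/
theorem right_bad (g : Good P) {P1 Q P2 : List (Fin 5)} {m c : Fin 5}
    (h : P = P1 ++ (Q ++ (m :: (Q ++ c :: P2)))) :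
    m ≠ c ∧ ¬ (m = 3 ∧ c = 1) ∧ ¬ (m = 1 ∧ c = 3) ∧ ¬ (m = 4 ∧ c = 0) ∧ ¬ (m = 2 ∧ c = 0) ∧
      ¬ (m = 2 ∧ c = 4) := by
  refine ⟨?_, ?_, ?_, ?_, ?_, ?_⟩
  · rintro rfl
    have := g.sq P1 (Q ++ [m]) P2 (by simp [h])
    simp at this
  · rintro ⟨rfl, rfl⟩; exact g.w1 P1 Q P2 h
  · rintro ⟨rfl, rfl⟩; exact g.w2 P1 Q P2 h
  · rintro ⟨rfl, rfl⟩; exact g.w3 P1 Q P2 h
  · rintro ⟨rfl, rfl⟩; exact g.w4 P1 Q P2 h
  · rintro ⟨rfl, rfl⟩
    rcases lastc Q with rfl | ⟨W, l, rfl⟩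
    · exact absurd (g.adj.mid P1 2 4 P2 (by simp [h])) (by decide)
    · have r1 := p2 (g.adj.mid (P1 ++ W) l 2 (W ++ [l] ++ 4 :: P2) (by simp [h]))
      have r2 := p4 (g.adj.mid (P1 ++ W ++ [l] ++ 2 :: W) l 4 P2 (by simp [h]))
      rcases r1 with rfl | rfl <;> rcases r2 with h | h <;> exact absurd h (by decide)

/-- information on both sides -/
theorem both_bad (g : Good P) {P1 Q P2 : List (Fin 5)} {a m c : Fin 5}
    (h : P = P1 ++ a :: (Q ++ (m :: (Q ++ c :: P2)))) :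
    a ≠ m ∧ ¬ (a = 3 ∧ m = 0 ∧ c = 2) ∧ ¬ (a = 3 ∧ m = 0 ∧ c = 4) ∧
      ¬ (a = 2 ∧ m = 0 ∧ c = 4) ∧ ¬ (a = 0 ∧ m = 2) ∧ ¬ (a = 3 ∧ m = 2) ∧
      ¬ (a = 0 ∧ m = 3) ∧ ¬ (a = 1 ∧ m = 4) := by
  have hr := right_bad g (P1 := P1 ++ [a]) (by simpa using h)
  obtain ⟨h1, h2, h3, h4, h5, h6⟩ := hr
  refine ⟨?_, ?_, ?_, ?_, ?_, ?_, ?_, ?_⟩
  · rintro rfl
    have := g.sq P1 (a :: Q) (c :: P2) (by simp [h])
    simp at this
  · rintro ⟨rfl, rfl, rfl⟩; exact g.b7 P1 Q P2 h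
  · rintro ⟨rfl, rfl, rfl⟩; exact g.b5 P1 Q P2 h
  · rintro ⟨rfl, rfl, rfl⟩; exact g.b6 P1 Q P2 h
  · rintro ⟨rfl, rfl⟩
    rcases lastc Q with rfl | ⟨W, l, rfl⟩
    · exact absurd (g.adj.mid P1 0 2 (c :: P2) (by simp [h])) (by decide)
    · have r1 := p2 (g.adj.mid (P1 ++ 0 :: W) l 2 (W ++ [l] ++ c :: P2) (by simp [h]))
      have r2 := g.adj.mid (P1 ++ 0 :: (W ++ [l]) ++ 2 :: W) l c P2 (by simp [h])
      rcases r1 with rfl | rfl
      · rcases s1 r2 with rfl | rfl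
        · exact h5 ⟨rfl, rfl⟩
        · exact h1 rfl
      · exact h1 (s4 r2).symm
  · rintro ⟨rfl, rfl⟩
    rcases Q with _ | ⟨q, Q⟩
    · exact absurd (g.adj.mid P1 3 2 (c :: P2) (by simp [h])) (by decide)
    · have r1 := s3 (g.adj.mid P1 3 q (Q ++ (2 :: (q :: Q ++ c :: P2))) (by simp [h]))
      have r2 := s2 (g.adj.mid (P1 ++ 3 :: (q :: Q)) 2 q (Q ++ c :: P2) (by simp [h]))
      rcases r1 with rfl | rfl <;> rcases r2 with h | h <;> exact absurd h (by decide)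
  · rintro ⟨rfl, rfl⟩
    rcases lastc Q with rfl | ⟨W, l, rfl⟩
    · exact absurd (g.adj.mid P1 0 3 (c :: P2) (by simp [h])) (by decide)
    · obtain rfl := p3 (g.adj.mid (P1 ++ 0 :: W) l 3 (W ++ [l] ++ c :: P2) (by simp [h]))
      rcases s2 (g.adj.mid (P1 ++ 0 :: (W ++ [2]) ++ 3 :: W) 2 c P2 (by simp [h])) with
        rfl | rfl
      · exact h2 ⟨rfl, rfl⟩
      · exact h1 rfl
  · rintro ⟨rfl, rfl⟩
    rcases lastc Q with rfl | ⟨W, l, rfl⟩
    · exact absurd (g.adj.mid P1 1 4 (c :: P2) (by simp [h])) (by decide)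
    · have r1 := p4 (g.adj.mid (P1 ++ 1 :: W) l 4 (W ++ [l] ++ c :: P2) (by simp [h]))
      have r2 := g.adj.mid (P1 ++ 1 :: (W ++ [l]) ++ 4 :: W) l c P2 (by simp [h])
      rcases r1 with rfl | rfl
      · rcases s0 r2 with rfl | rfl
        · exact g.b9 P1 (W ++ [0]) P2 h
        · exact h1 rfl
      · rcases s3 r2 with rfl | rfl
        · exact h4 ⟨rfl, rfl⟩
        · exact h1 rfl

/-- the possible letters on the right -/
theorem rightc {c : Fin 5} {P' : List (Fin 5)} {t Y : List (Fin 3)}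
    (h : gg c ++ G P' = 0 :: (t ++ Y)) (ht : 0 ∉ t) : ∃ w, gg c = 0 :: (t ++ w) := by
  have hc := G_cz P'
  rcases t with _ | ⟨t1, _ | ⟨t2, _ | ⟨t3, _ | ⟨t4, t⟩⟩⟩⟩ <;>
    rcases hP : G P' with _ | ⟨p, R'⟩ <;> rw [hP] at h hc <;> fin_cases c <;>
    simp [gg, cz] at h ht hc ⊢ <;> grind

theorem leftc {a : Fin 5} {P' : List (Fin 5)} {s X : List (Fin 3)}
    (h : G P' ++ gg a = X ++ s) (hs : 0 ∉ s) : ∃ w, gg a = w ++ s := by
  rcases List.append_eq_append_iff.1 h with ⟨w, h1, h2⟩ | ⟨w, h1, h2⟩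
  · exact ⟨w, h2⟩
  · exfalso
    apply hs
    rw [h2]
    fin_cases a <;> simp [gg]

theorem sqG (g : Good P) {X V Y : List (Fin 3)} (hY : 3 ≤ Y.length)
    (h : G P = X ++ (V ++ (V ++ Y))) : V = [] := by
  by_contra hV
  by_cases h0 : (0 : Fin 3) ∈ V
  · obtain ⟨s, r, rfl, hs⟩ := List.eq_append_cons_of_mem h0
    have hr : ∃ U t, (0 : Fin 3) :: r = U ++ 0 :: t ∧ 0 ∉ t := by
      have h1 : (0 : Fin 3) ∈ ((0 : Fin 3) :: r).reverse := by simp
      obtain ⟨t', U', e, ht⟩ := List.eq_append_cons_of_mem h1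
      refine ⟨U'.reverse, t'.reverse, ?_, by simpa using ht⟩
      have := congrArg List.reverse e
      simpa using this
    obtain ⟨U, t, e, ht⟩ := hr
    rw [e] at h
    have hU : ∀ Z, cz (U ++ 0 :: Z) := by
      intro Z
      rcases U with _ | ⟨u, U⟩
      · rfl
      · simp at e
        exact e.1.symm
    have h2 : G P = (X ++ s) ++ (U ++ ((0 :: (t ++ s)) ++ (U ++ (0 :: (t ++ Y))))) := by
      simp [h]
    obtain ⟨P1, Q, M, P2, rfl, e1, e2, e3, e4⟩ := twoG h2 (hU _) rfl (hU _) rfl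
    have hts : 0 ∉ t ++ s := by simp [ht, hs]
    obtain ⟨m, rfl, hm⟩ := oneG e3 hts
    obtain ⟨c, P2', rfl, hc'⟩ := firstG e4
    obtain ⟨w, hc⟩ := rightc hc' ht
    obtain ⟨r1, r2, r3, r4, r5, r6⟩ := right_bad g (P1 := P1) (Q := Q) (m := m) (c := c)
      (P2 := P2') (by simp)
    by_cases hs' : s = []
    · subst hs'
      simp at hm
      clear h h2 e1 e2 e3 e4 hc' hY
      rcases t with _ | ⟨t1, _ | ⟨t2, _ | ⟨t3, _ | ⟨t4, t⟩⟩⟩⟩ <;> fin_cases m <;>
        simp [gg] at hm <;> (try obtain ⟨rfl, hm⟩ := hm) <;> (try obtain ⟨rfl, hm⟩ := hm) <;>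
        (try subst hm) <;> fin_cases c <;> simp [gg] at hc r1 r2 r3 r4 r5 r6
    · obtain ⟨P1', a, rfl, ha'⟩ := lastG e1 hs'
      obtain ⟨w', ha⟩ := leftc ha' hs
      obtain ⟨q1, q2, q3, q4, q5, q6, q7, q8⟩ := both_bad g (P1 := P1') (Q := Q) (a := a) (m := m)
        (c := c) (P2 := P2') (by simp)
      clear h h2 e1 e2 e3 e4 hc' hY ha'
      have ha2 := congrArg List.reverse ha
      rcases t with _ | ⟨t1, _ | ⟨t2, _ | ⟨t3, _ | ⟨t4, t⟩⟩⟩⟩
      · fin_cases m <;> simp [gg] at hm <;> subst hm <;>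
          fin_cases a <;> simp [gg] at ha2 q1 q5 q6 q7 q8
      · fin_cases m <;> simp [gg] at hm <;> obtain ⟨rfl, rfl⟩ := hm <;>
          first
            | exact hs' rfl
            | (fin_cases a <;> simp [gg] at ha2 q1 q5 q6 q7 q8 <;> fin_cases c <;>
                simp [gg] at hc r1 r2 r3 r4 r5 r6 q2 q3 q4)
      · fin_cases m <;> simp [gg] at hm <;> obtain ⟨rfl, rfl, rfl⟩ := hm <;>
          first
            | exact hs' rfl
            | (fin_cases a <;> simp [gg] at ha2 q1 q5 q6 q7 q8 <;> fin_cases c <;>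
                simp [gg] at hc r1 r2 r3 r4 r5 r6 q2 q3 q4)
      · fin_cases m <;> simp [gg] at hm <;> obtain ⟨rfl, rfl, rfl, rfl⟩ := hm <;>
          exact hs' rfl
      · fin_cases m <;> simp [gg] at hm
  · rcases V with _ | ⟨a, _ | ⟨b, V⟩⟩
    · exact hV rfl
    · rcases Y with _ | ⟨y1, _ | ⟨y2, Y⟩⟩
      · simp at hY
      · simp at hY
      · exact (K_of g (X := X) (a := a) (b := a) (c := y1) (d := y2) (Y := Y) (by simp [h])).1 rfl
    · simp at h0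
      rcases V with _ | ⟨c, _ | ⟨d, V⟩⟩
      · have := (K_of g (X := X) (a := a) (b := b) (c := a) (d := b) (Y := Y)
          (by simp [h])).2.2.2.1
        grind
      · have := (K_of g (X := X) (a := a) (b := b) (c := c) (d := a) (Y := b :: c :: Y)
          (by simp [h])).2.2.2.1
        simp at h0
        grind
      · have := (K_of g (X := X) (a := a) (b := b) (c := c) (d := d)
          (Y := V ++ (a :: b :: c :: d :: V ++ Y)) (by simp [h])).2.2.2.1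
        simp at h0
        grind

end Pool.Agent.R717.Seq
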